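import Pool.Agent.W973.CES.Defs

/-!
# A coalition-exchange-stable matching gives an assignment
-/

set_option autoImplicit false

namespace Pool.Agent.W740.CES

open Pool.Agent.W973.CES Pool.Agent.NPC

theorem lt_irrefl' (t : List ℕ) (y : ℕ) : ¬ Lt t y y := by
  rintro (h | h)
  · exact lt_irrefl _ h
  · exact lt_irrefl _ h.2

theorem sound (h1 : S_VAL) (h2 : S_PERM) (h3 : S_COAL) (h4 : S_INT) (h5 : S_SND) (h6 : S_ASG) :
    S_SOUND := by
  intro φ M hM
  obtain ⟨-, hlen, hL⟩ := h1 φ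
  have hperm : M.Perm (List.range (NN φ)) := by
    rw [← hlen]
    exact hM.1
  have hIM := h2 _ M hperm
  obtain ⟨c2, c3⟩ := h3 _ M hM
  have eM : ∀ x < NN φ, ∀ y < NN φ,
      Lt (topM φ x) (M.getD y 0) (M.getD x 0) → Envy (red φ) M (true, x) (true, y) := by
    intro x hx y hy h
    refine ⟨rfl, ?_⟩
    have h7 := ((hL x hx (M.getD y 0) (hIM.fl y hy) (M.getD x 0) (hIM.fl x hx)).1).2 h
    simpa [partner] using h7
  have eW : ∀ x < NN φ, ∀ y < NN φ,
      Lt (topW φ x) (M.idxOf y) (M.idxOf x) → Envy (red φ) M (false, x) (false, y) := by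
    intro x hx y hy h
    refine ⟨rfl, ?_⟩
    have h7 := ((hL x hx (M.idxOf y) (hIM.gl y hy) (M.idxOf x) (hIM.gl x hx)).2).2 h
    simpa [partner] using h7
  have hb : ∀ x < NN φ, ∀ s : Bool, ((s, x) : Agt).2 < (red φ).1.length := by
    intro x hx s
    rw [hlen]
    exact hx
  have hW : ∀ x < NN φ, ∀ y < NN φ, ¬ (Lt (topW φ x) (M.idxOf y) (M.idxOf x) ∧
      Lt (topW φ y) (M.idxOf x) (M.idxOf y)) := by
    rintro x hx y hy ⟨ha, hc⟩
    rcases eq_or_ne x y with rfl | hne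
    · exact lt_irrefl' _ _ ha
    · exact c2 (false, x) (false, y) (hb x hx _) (hb y hy _)
        (fun h => hne (congrArg Prod.snd h)) ⟨eW x hx y hy ha, eW y hy x hx hc⟩
  have hMM : ∀ x < NN φ, ∀ y < NN φ, ¬ (Lt (topM φ x) (M.getD y 0) (M.getD x 0) ∧
      Lt (topM φ y) (M.getD x 0) (M.getD y 0)) := by
    rintro x hx y hy ⟨ha, hc⟩
    rcases eq_or_ne x y with rfl | hne
    · exact lt_irrefl' _ _ ha
    · exact c2 (true, x) (true, y) (hb x hx _) (hb y hy _)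
        (fun h => hne (congrArg Prod.snd h)) ⟨eM x hx y hy ha, eM y hy x hx hc⟩
  have hM3 : ∀ x < NN φ, ∀ y < NN φ, ∀ z < NN φ, x ≠ y → y ≠ z → x ≠ z →
      ¬ (Lt (topM φ x) (M.getD y 0) (M.getD x 0) ∧ Lt (topM φ y) (M.getD z 0) (M.getD y 0) ∧
        Lt (topM φ z) (M.getD x 0) (M.getD z 0)) := by
    rintro x hx y hy z hz hxy hyz hxz ⟨ha, hc, hd⟩
    exact c3 (true, x) (true, y) (true, z) (hb x hx _) (hb y hy _) (hb z hz _)
      (fun h => hxy (congrArg Prod.snd h)) (fun h => hyz (congrArg Prod.snd h))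
      (fun h => hxz (congrArg Prod.snd h))
      ⟨eM x hx y hy ha, eM y hy z hz hc, eM z hz x hx hd⟩
  have hint := h4 φ _ _ hIM hMM hW
  obtain ⟨r1, r2⟩ := h5 φ _ _ hIM hint hW hM3
  exact h6 φ (fun i => M.getD (2 * i) 0 = 2 * i) r1 r2

end Pool.Agent.W740.CES
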